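import Pool.Agent.L5helper16.LG.Defs
import Pool.Agent.L5helper2.RS.E3

/-! Project LG (helper16): A4, the product of Mertens over an interval. -/

set_option autoImplicit false

namespace Pool.Agent.L5helper84.LG

open Finset Filter Topology
open Pool.Agent.L5helper16.LG

lemma vv_split {z y : ℕ} (hzy : z ≤ y) :
    VV (prI z y) * Pool.Agent.L5helper2.RS.Vp z = Pool.Agent.L5helper2.RS.Vp y := by
  rw [Pool.Agent.L5helper2.RS.Vp_eq, Pool.Agent.L5helper2.RS.Vp_eq]
  unfold VV prI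
  rw [← Finset.prod_union]
  · congr 1
    ext p
    simp only [Finset.mem_union, Finset.mem_filter, Finset.mem_Ioc, Finset.mem_Icc]
    constructor
    · rintro (⟨⟨h1, h2⟩, h3⟩ | ⟨⟨h1, h2⟩, h3⟩)
      · exact ⟨⟨by omega, h2⟩, h3⟩
      · exact ⟨⟨h1, by omega⟩, h3⟩
    · rintro ⟨⟨h1, h2⟩, h3⟩
      rcases Nat.lt_or_ge z p with h | h
      · exact Or.inl ⟨⟨h, h2⟩, h3⟩
      · exact Or.inr ⟨⟨h1, h⟩, h3⟩
  · rw [Finset.disjoint_left]
    intro p h1 h2
    simp only [Finset.mem_filter, Finset.mem_Ioc, Finset.mem_Icc] at h1 h2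
    omega

theorem a4 : St_A4 := by
  intro η hη
  set L : ℝ := Real.exp (-Real.eulerMascheroniConstant) with hL
  have hLpos : 0 < L := Real.exp_pos _
  -- choose ε with (1+ε) ≤ (1+η)(1-ε)
  set ε : ℝ := η / (2 + η) with hε
  have h2η : (0:ℝ) < 2 + η := by linarith
  have hεpos : 0 < ε := div_pos hη h2η
  have hεlt : ε < 1 := by
    rw [hε, div_lt_one h2η]; linarith
  have hkey : 1 + ε = (1 + η) * (1 - ε) := by
    rw [hε]; field_simp; ring
  have hm := Pool.Agent.L5helper2.RS.Vp_mertens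
  have hlo : ∀ᶠ n : ℕ in atTop, (1 - ε) * L < Pool.Agent.L5helper2.RS.Vp n * Real.log n :=
    hm.eventually (lt_mem_nhds (by nlinarith))
  have hhi : ∀ᶠ n : ℕ in atTop, Pool.Agent.L5helper2.RS.Vp n * Real.log n < (1 + ε) * L :=
    hm.eventually (gt_mem_nhds (by nlinarith))
  obtain ⟨D, hD⟩ := (hlo.and hhi).exists_forall_of_atTop
  refine ⟨max D 2, fun z y hz hzy => ?_⟩
  have hz2 : 2 ≤ z := (le_max_right _ _).trans hz
  have hzD : D ≤ z := (le_max_left _ _).trans hz
  have hlz : 0 < Real.log z := Real.log_pos (by exact_mod_cast (by omega : 1 < z))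
  have hly : 0 < Real.log y := Real.log_pos (by exact_mod_cast (by omega : 1 < y))
  have h1 := (hD z hzD).1
  have h2 := (hD y (hzD.trans hzy)).2
  have hVz := Pool.Agent.L5helper2.RS.Vp_pos z
  have hsplit := vv_split hzy
  have hVV : VV (prI z y) = Pool.Agent.L5helper2.RS.Vp y / Pool.Agent.L5helper2.RS.Vp z := by
    rw [← hsplit]; field_simp
  rw [hVV, div_le_iff₀ hVz]
  have e1 : (1 + η) * (Real.log z / Real.log y) * Pool.Agent.L5helper2.RS.Vp z
      = (1 + η) * (Pool.Agent.L5helper2.RS.Vp z * Real.log z) / Real.log y := by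
    field_simp
  rw [e1, le_div_iff₀ hly]
  have h3 : (1 + η) * ((1 - ε) * L) ≤ (1 + η) * (Pool.Agent.L5helper2.RS.Vp z * Real.log z) :=
    mul_le_mul_of_nonneg_left h1.le (by linarith)
  have h4 : (1 + η) * ((1 - ε) * L) = (1 + ε) * L := by rw [hkey]; ring
  linarith

end Pool.Agent.L5helper84.LG
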