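import Pool.Agent.L5helper16.LG.Defs

/-!
# LG B3: the hitting probability of elements which are distinct modulo all primes
-/

set_option autoImplicit false

namespace Pool.Agent.L5helper84.LG

open Finset MeasureTheory ProbabilityTheory Filter Topology
open Pool.Agent.L5helper86.UL Pool.Agent.L5helper16.LG

theorem b3 (h1 : St_B1) (h2 : St_B2) : St_B3 := by
  intro Ω _ P X hX Q
  obtain ⟨hb, hs⟩ := h1 P X hX
  obtain ⟨f1, f2, f3⟩ := h2
  induction Q using Finset.induction_on with
  | empty =>
    intro _ S _
    rw [hb S]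
    by_cases hS : S = ∅
    · rw [if_pos hS, hS, card_empty, f1]
    · rw [if_neg hS]
      obtain ⟨m, hm⟩ : ∃ m, #S = m + 1 :=
        ⟨#S - 1, by have := card_pos.2 (nonempty_iff_ne_empty.2 hS); omega⟩
      rw [hm, f2]
  | insert p Q hp ih =>
    intro hQ S hS
    have hpp : p.Prime := hQ p (mem_insert_self _ _)
    have hQ' : ∀ q ∈ Q, q.Prime := fun q hq => hQ q (mem_insert_of_mem hq)
    have hinj : Set.InjOn (fun n : ℕ => n % p) (S : Set ℕ) := hS p (mem_insert_self _ _)
    rw [hs Q hQ' p hpp hp S]
    have hp0 : (p : ℝ) ≠ 0 := by exact_mod_cast hpp.ne_zero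
    -- values
    have hv : ∀ r, HP P X Q (S.filter fun n => n % p ≠ r) =
        ff Q #(S.filter fun n => n % p ≠ r) := fun r =>
      ih hQ' _ fun q hq => (hS q (mem_insert_of_mem hq)).mono (by
        intro n hn
        exact (mem_filter.1 (mem_coe.1 hn)).1)
    obtain ⟨I, hI⟩ : ∃ I, I = S.image (fun n => n % p) := ⟨_, rfl⟩
    have hIc : #I = #S := by rw [hI]; exact card_image_of_injOn hinj
    have hIr : I ⊆ range p := by
      intro r hr
      rw [hI, mem_image] at hr
      obtain ⟨n, -, rfl⟩ := hr
      exact mem_range.2 (Nat.mod_lt _ hpp.pos)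
    have hin : ∀ r ∈ I, #(S.filter fun n => n % p ≠ r) = #S - 1 := by
      intro r hr
      rw [hI, mem_image] at hr
      obtain ⟨n, hn, hnr⟩ := hr
      have e : (S.filter fun n' => n' % p ≠ r) = S.erase n := by
        ext n'
        rw [mem_filter, mem_erase]
        constructor
        · rintro ⟨h3, h4⟩
          refine ⟨fun h5 => h4 ?_, h3⟩
          rw [h5]
          exact hnr
        · rintro ⟨h3, h4⟩
          refine ⟨h4, fun h5 => h3 ?_⟩
          exact hinj (mem_coe.2 h4) (mem_coe.2 hn) (h5.trans hnr.symm)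
      rw [e, card_erase_of_mem hn]
    have hout : ∀ r ∈ range p \ I, #(S.filter fun n => n % p ≠ r) = #S := by
      intro r hr
      rw [Finset.mem_sdiff] at hr
      congr 1
      rw [filter_eq_self]
      intro n hn h5
      apply hr.2
      rw [hI, mem_image]
      exact ⟨n, hn, h5⟩
    have hsum : ∑ r ∈ range p, HP P X Q (S.filter fun n => n % p ≠ r) =
        (#S : ℝ) * ff Q (#S - 1) + ((p : ℝ) - #S) * ff Q #S := by
      rw [← sum_sdiff hIr]
      have e1 : ∑ r ∈ I, HP P X Q (S.filter fun n => n % p ≠ r) = (#S : ℝ) * ff Q (#S - 1) := by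
        rw [← hIc, ← nsmul_eq_mul, ← sum_const]
        refine sum_congr rfl fun r hr => ?_
        rw [hv r, hin r hr, hIc]
      have e2 : ∑ r ∈ range p \ I, HP P X Q (S.filter fun n => n % p ≠ r) =
          ((p : ℝ) - #S) * ff Q #S := by
        have h5 : #(range p \ I) = p - #S := by
          rw [card_sdiff_of_subset hIr, card_range, hIc]
        have h6 : #S ≤ p := by
          have := card_le_card hIr
          rwa [card_range, hIc] at this
        have h7 : ((p : ℝ) - #S) = (#(range p \ I) : ℝ) := by
          rw [h5, Nat.cast_sub h6]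
        rw [h7, ← nsmul_eq_mul, ← sum_const]
        refine sum_congr rfl fun r hr => ?_
        rw [hv r, hout r hr]
      rw [e1, e2, add_comm]
    rw [hsum]
    rcases Nat.eq_zero_or_pos #S with h0 | h0
    · rw [h0, f1, f1]
      simp [hp0]
    · obtain ⟨m, hm⟩ : ∃ m, #S = m + 1 := ⟨#S - 1, by omega⟩
      rw [hm, f3 Q p hp hpp.ne_zero m, Nat.add_sub_cancel]
      push_cast
      field_simp
      ring

end Pool.Agent.L5helper84.LG
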